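import Mathlib
import Pool.Agent.H13.Berg.Main

/-!
# Slowly oscillating functions on arbitrary Bergman groups: a characterisation (MP_5c36f9_al)

On a Bergman group a slowly oscillating `f` is constant at infinity if and only if its variations
`n ↦ #{x : 2⁻ⁿ ≤ |f (g x) - f x|}` (`g ∈ G`) are eventually dominated by one function.
-/

namespace Pool.Agent.Results.MP_5c36f9_al.DominatedVariation

open scoped Pointwise Topology
open Filter

/-- The ball `E_F[x] = {x} ∪ F x` of the finitary ballean. -/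
def ball {G : Type*} [Group G] (F : Set G) (x : G) : Set G := {x} ∪ F * {x}

/-- Slowly oscillating functions. -/
def SlowlyOscillating {G : Type*} [Group G] (f : G → ℝ) : Prop :=
  ∀ F : Set G, F.Finite → ∀ ε : ℝ, 0 < ε →
    ∃ B : Set G, B.Finite ∧ ∀ x, x ∉ B → Metric.diam (f '' ball F x) < ε

/-- Functions constant at infinity. -/
def ConstantAtInfinity {G : Type*} [Group G] (f : G → ℝ) : Prop :=
  ∃ c : ℝ, ∀ O ∈ 𝓝 c, (Set.univ \ f ⁻¹' O).Finite

/-- Bergman groups: no strictly increasing sequence `(X_n)` of subsets with union `G`,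
`X_n = X_n⁻¹` and `X_n ^ 2 ⊆ X_{n+1}`. -/
def Bergman (G : Type*) [Group G] : Prop :=
  ¬ ∃ X : ℕ → Set G, StrictMono X ∧ (⋃ n, X n) = Set.univ ∧ (∀ n, X n = (X n)⁻¹) ∧
    ∀ n, X n * X n ⊆ X (n + 1)

/-- The variations of `f` are eventually dominated by one function `h : ℕ → ℕ`. -/
def HasDominatedVariation {G : Type*} [Group G] (f : G → ℝ) : Prop :=
  ∃ h : ℕ → ℕ, ∀ g : G, ∀ᶠ n in atTop, {x : G | (1 / 2 : ℝ) ^ n ≤ |f (g * x) - f x|}.ncard ≤ h n

lemma so_finite {G : Type*} [Group G] {f : G → ℝ} (hf : SlowlyOscillating f) (g : G) (δ : ℝ)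
    (hδ : 0 < δ) : {x : G | δ ≤ |f (g * x) - f x|}.Finite := by
  obtain ⟨B, hB, hBx⟩ := hf {g} (Set.finite_singleton g) δ hδ
  refine hB.subset ?_
  intro x hx
  by_contra hxB
  have h1 := hBx x hxB
  have hfin : (f '' ball {g} x).Finite := by
    apply Set.Finite.image
    unfold ball
    exact (Set.finite_singleton x).union ((Set.finite_singleton g).mul (Set.finite_singleton x))
  have h2 := Metric.dist_le_diam_of_mem hfin.isBounded
    (show f (g * x) ∈ f '' ball {g} x from
      ⟨g * x, Or.inr (Set.mul_mem_mul rfl rfl), rfl⟩)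
    (show f x ∈ f '' ball {g} x from ⟨x, Or.inl rfl, rfl⟩)
  rw [Real.dist_eq] at h2
  exact absurd (lt_of_le_of_lt (le_trans hx h2) h1) (lt_irrefl _)

lemma const_of_tendsto {G : Type*} [Group G] {f : G → ℝ} (h : ∃ c, Tendsto f cofinite (𝓝 c)) :
    ConstantAtInfinity f := by
  obtain ⟨c, hc⟩ := h
  refine ⟨c, fun O hO => ?_⟩
  have := hc hO
  rw [Filter.mem_map, Filter.mem_cofinite] at this
  rwa [← Set.compl_eq_univ_diff]

lemma const_of_finite {G : Type*} [Group G] [Finite G] (f : G → ℝ) : ConstantAtInfinity f :=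
  ⟨0, fun _ _ => Set.toFinite _⟩

lemma dominated_of_const {G : Type*} [Group G] {f : G → ℝ} (h : ConstantAtInfinity f) :
    HasDominatedVariation f := by
  obtain ⟨c, hc⟩ := h
  let S : ℕ → Set G := fun n => Set.univ \ f ⁻¹' (Metric.ball c ((1 / 2 : ℝ) ^ n / 2))
  have hS : ∀ n, (S n).Finite := fun n => hc _ (Metric.ball_mem_nhds c (by positivity))
  refine ⟨fun n => (S n).ncard + (S n).ncard, fun g => Filter.Eventually.of_forall fun n => ?_⟩
  have hsub : {x : G | (1 / 2 : ℝ) ^ n ≤ |f (g * x) - f x|} ⊆ (fun y => g⁻¹ * y) '' S n ∪ S n := by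
    intro x hx
    by_contra hcon
    rw [Set.mem_union, not_or] at hcon
    obtain ⟨h1, h2⟩ := hcon
    have h1' : g * x ∉ S n := fun h' => h1 ⟨g * x, h', by simp⟩
    simp only [S, Set.mem_diff, Set.mem_univ, true_and, Set.mem_preimage, not_not,
      Metric.mem_ball, Real.dist_eq] at h1' h2
    simp only [Set.mem_setOf_eq] at hx
    have h3 := abs_sub_le (f (g * x)) c (f x)
    rw [abs_sub_comm c (f x)] at h3
    linarith
  calc _ ≤ ((fun y => g⁻¹ * y) '' S n ∪ S n).ncard :=
        Set.ncard_le_ncard hsub (((hS n).image _).union (hS n))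
    _ ≤ _ := Set.ncard_union_le _ _
    _ = _ := by rw [Set.ncard_image_of_injective _ (mul_right_injective g⁻¹)]

theorem result.{u} (G : Type u) [Group G] (hG : Bergman G) (f : G → ℝ)
    (hf : SlowlyOscillating f) : ConstantAtInfinity f ↔ HasDominatedVariation f := by
  refine ⟨dominated_of_const, fun hd => ?_⟩
  rcases finite_or_infinite G with h | h
  · exact const_of_finite f
  · haveI := H13.Berg.uncountable_of_Bergman hG
    refine const_of_tendsto (H13.Berg.tendsto_of_unif' f ?_)
    exact H13.Berg.unif_of_dom hG f (fun g δ hδ => so_finite hf g δ hδ) hd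

end Pool.Agent.Results.MP_5c36f9_al.DominatedVariation
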