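import Mathlib
import Pool.Agent.H13.Berg.Main

/-!
# Slowly oscillating functions on uniformly Bergman groups and on `S_X` (MP_5c36f9_al)

Every slowly oscillating function is constant at infinity on each group which is uniformly Bergman
or is isomorphic to the group `S_X` of all permutations of a set `X`.
-/

namespace Pool.Agent.Results.MP_5c36f9_al.SymmetricGroups

open scoped Pointwise Topology
open Filter

/-- The ball `E_F[x] = {x} ∪ F x` of the finitary ballean. -/
def ball {G : Type*} [Group G] (F : Set G) (x : G) : Set G := {x} ∪ F * {x}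

/-- Slowly oscillating functions. -/
def SlowlyOscillating {G : Type*} [Group G] (f : G → ℝ) : Prop :=
  ∀ F : Set G, F.Finite → ∀ ε : ℝ, 0 < ε →
    ∃ B : Set G, B.Finite ∧ ∀ x, x ∉ B → Metric.diam (f '' ball F x) < ε

/-- Functions constant at infinity. -/
def ConstantAtInfinity {G : Type*} [Group G] (f : G → ℝ) : Prop :=
  ∃ c : ℝ, ∀ O ∈ 𝓝 c, (Set.univ \ f ⁻¹' O).Finite

/-- Uniform Bergman property with exponent `k`: whenever `G` is the union of an increasing sequence
of symmetric sets, the `k`-fold product set of one of them is `G`. -/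
def UniformlyBergman (G : Type*) [Group G] (k : ℕ) : Prop :=
  ∀ U : ℕ → Set G, Monotone U → (∀ n, (U n)⁻¹ = U n) → (⋃ n, U n) = Set.univ →
    ∃ n, (U n) ^ k = Set.univ

lemma so_finite {G : Type*} [Group G] {f : G → ℝ} (hf : SlowlyOscillating f) (g : G) (δ : ℝ)
    (hδ : 0 < δ) : {x : G | δ ≤ |f (g * x) - f x|}.Finite := by
  obtain ⟨B, hB, hBx⟩ := hf {g} (Set.finite_singleton g) δ hδ
  refine hB.subset ?_
  intro x hx
  by_contra hxB
  have h1 := hBx x hxB
  have hfin : (f '' ball {g} x).Finite := by
    apply Set.Finite.image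
    unfold ball
    exact (Set.finite_singleton x).union ((Set.finite_singleton g).mul (Set.finite_singleton x))
  have h2 := Metric.dist_le_diam_of_mem hfin.isBounded
    (show f (g * x) ∈ f '' ball {g} x from
      ⟨g * x, Or.inr (Set.mul_mem_mul rfl rfl), rfl⟩)
    (show f x ∈ f '' ball {g} x from ⟨x, Or.inl rfl, rfl⟩)
  rw [Real.dist_eq] at h2
  exact absurd (lt_of_le_of_lt (le_trans hx h2) h1) (lt_irrefl _)

lemma const_of_tendsto {G : Type*} [Group G] {f : G → ℝ} (h : ∃ c, Tendsto f cofinite (𝓝 c)) :
    ConstantAtInfinity f := by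
  obtain ⟨c, hc⟩ := h
  refine ⟨c, fun O hO => ?_⟩
  have := hc hO
  rw [Filter.mem_map, Filter.mem_cofinite] at this
  rwa [← Set.compl_eq_univ_diff]

lemma const_of_finite {G : Type*} [Group G] [Finite G] (f : G → ℝ) : ConstantAtInfinity f :=
  ⟨0, fun _ _ => Set.toFinite _⟩

theorem result.{u} (G : Type u) [Group G]
    (hG : (∃ k : ℕ, UniformlyBergman G k) ∨ ∃ X : Type u, Nonempty (Equiv.Perm X ≃* G))
    (f : G → ℝ) (hf : SlowlyOscillating f) : ConstantAtInfinity f := by
  rcases finite_or_infinite G with h | h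
  · exact const_of_finite f
  · have hUB : ∃ k : ℕ, H13.Berg.UB G k := by
      rcases hG with hk | ⟨X, ⟨e⟩⟩
      · exact hk
      · rcases finite_or_infinite X with hX | hX
        · haveI : Finite G := Finite.of_equiv _ e.toEquiv
          exact absurd h (not_infinite_iff_finite.2 inferInstance)
        · exact ⟨41, (H13.Berg.UB_perm X).congr e⟩
    obtain ⟨k, hk⟩ := hUB
    exact const_of_tendsto (H13.Berg.tendsto_of_UB hk f (fun g δ hδ => so_finite hf g δ hδ))

end Pool.Agent.Results.MP_5c36f9_al.SymmetricGroups
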